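import Pool.Agent.helper82.DP.NoDef

/-!
# A `Π⁰₁(∅')` tree with a `BΣ⁰₂`-preserving path and no definable path

There are a model `(M, S)` of `RCA₀ + BΣ⁰₂ + ¬IΣ⁰₂` and a `Π⁰₁(∅')` tree `T` which has a path
preserving `BΣ⁰₂`, but no path of `T` at all is first-order definable over `M` with parameters.
-/

namespace Pool.Agent.helper82.DP

theorem delta1_mono {P Q : Set (Set MM)} (hPQ : P ⊆ Q) {X : Set MM} (hX : IsDelta1 P X) :
    IsDelta1 Q X := ⟨hX.1.mono hPQ, hX.2.mono hPQ⟩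

theorem BSigma2_mono {P Q : Set (Set MM)} (hPQ : P ⊆ Q) (h : BSigma2 Q) : BSigma2 P :=
  fun R hR => h R (hR.mono hPQ)

theorem ISigma1_mono {P Q : Set (Set MM)} (hPQ : P ⊆ Q) (h : ISigma1 Q) : ISigma1 P :=
  fun R hR => h R (hR.mono hPQ)

theorem RCA0_delta1 {P : Set (Set MM)} (hB : BSigma2 P) (hI : ISigma1 P) :
    RCA0 {X | IsDelta1 P X} :=
  ⟨MM_nonneg, MM_sub, MM_discrete, ISigma1.delta1 MM_lt_succ hB hI,
    fun _ hX => IsDelta1.of_delta1 MM_lt_succ hB hX⟩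

theorem insert_sub : insert (graph gg) {X : Set MM | IsDelta1 ∅ X} ⊆
    {X | IsDelta1 {graph gg} X} := by
  rintro X (rfl | hX)
  · have h : Delta0 {graph gg} fun v : Fin 1 → MM => v 0 ∈ graph gg :=
      Delta0.mem (IsTerm.var 0) rfl
    exact ⟨h.sigma1, h.pi1⟩
  · exact delta1_mono (Set.empty_subset _) hX

end Pool.Agent.helper82.DP

open Pool.Agent.helper82.DP in
/-- There are `(M, S) ⊨ RCA₀ + BΣ⁰₂ + ¬IΣ⁰₂` and a tree `T`, `Π⁰₁(∅')` in `M`, with a path `g` such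
that `M[g] ⊨ RCA₀ + BΣ⁰₂`, and such that no path of `T` is first-order definable over `M` with
parameters from `M`; moreover `S` consists of the `Δ⁰₁`-definable subsets of `M` only. -/
theorem Pool.Agent.Results.MP_ea6e61_lc.NoDefinablePath.result :
    ∃ (M : Type) (_ : CommSemiring M) (_ : LinearOrder M) (_ : IsStrictOrderedRing M)
      (S : Set (Set M)), RCA0 S ∧ BSigma2 S ∧ ¬ ISigma2 S ∧ S = {X | IsDelta1 ∅ X} ∧
      ∃ T : Set (FinSeq M), IsTree T ∧ IsPi1Jump T ∧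
        (∃ g ∈ paths T, RCA0 (adjoin S g) ∧ BSigma2 (adjoin S g)) ∧
        ∀ h ∈ paths T, ¬ DefinableFun h := by
  have hB : BSigma2 (insert (graph gg) {X : Set MM | IsDelta1 ∅ X}) :=
    BSigma2_mono insert_sub (BSigma2.delta1 MM_lt_succ BSigma2_gg)
  have hI : ISigma1 (insert (graph gg) {X : Set MM | IsDelta1 ∅ X}) :=
    ISigma1_mono insert_sub (ISigma1.delta1 MM_lt_succ BSigma2_gg ISigma1_gg)
  exact ⟨MM, inferInstance, inferInstance, inferInstance, {X | IsDelta1 ∅ X},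
    RCA0_delta1 (BSigma2_mono (Set.empty_subset _) hB) (ISigma1_mono (Set.empty_subset _) hI),
    BSigma2_mono (Set.subset_insert _ _) hB, not_ISigma2, rfl, TT, TT_isTree, TT_pi,
    ⟨gg, gg_mem, RCA0_delta1 hB hI, BSigma2.delta1 MM_lt_succ hB⟩,
    fun h hh => not_definable hh⟩
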